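import Mathlib

open Finset

namespace Pool.Agent.W_MP_9c9001_co.Defs

/-- The indeterminate `q` of the field `ℚ(q)`. -/
noncomputable def q : RatFunc ℚ := RatFunc.X

/-- The `q`-number `[n]_q = 1 + q + ... + q^(n-1)`. -/
noncomputable def qNum (n : ℕ) : RatFunc ℚ := ∑ i ∈ range n, q ^ i

/-- The `q`-factorial `[d]_q! = [1]_q [2]_q ... [d]_q`. -/
noncomputable def qFactorial (d : ℕ) : RatFunc ℚ := ∏ i ∈ range d, qNum (i + 1)

open Classical in
/-- The sum of `q ^ (∑ v, c v)` over the proper colorings `c` of `G` with colors `1, ..., n`. -/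
noncomputable def qColorings {V : Type*} [Fintype V] (G : SimpleGraph V) (n : ℕ) : RatFunc ℚ :=
  ∑ c ∈ (Fintype.piFinset (fun _ : V => Icc 1 n)).filter
      (fun c => ∀ v w, G.Adj v w → c v ≠ c w), q ^ (∑ v, c v)

/-- `χ` is the `q`-chromatic polynomial of `G`. -/
def IsQChromatic {V : Type*} [Fintype V] (G : SimpleGraph V)
    (χ : Polynomial (RatFunc ℚ)) : Prop :=
  ∀ n : ℕ, 0 < n → χ.eval (qNum n) = qColorings G n

/-- A polynomial in `q` with nonnegative integer coefficients, as an element of `ℚ(q)`. -/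
noncomputable def ofNatPoly (b : Polynomial ℕ) : RatFunc ℚ :=
  algebraMap (Polynomial ℚ) (RatFunc ℚ) (b.map (Nat.castRingHom ℚ))

end Pool.Agent.W_MP_9c9001_co.Defs
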