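import Pool.Agent.W_MP_9c9001_co.Color
import Pool.Agent.W_MP_9c9001_co.Defs

open Finset

namespace Pool.Agent.W_MP_9c9001_co.Final

open Pool.Agent.W_MP_9c9001_co Pool.Agent.W_MP_9c9001_co.Defs

lemma q_pow_ne_one (n : ℕ) (hn : 0 < n) : q ^ n ≠ 1 := by
  intro h
  have h1 : (algebraMap (Polynomial ℚ) (RatFunc ℚ)) (Polynomial.X ^ n) =
      (algebraMap (Polynomial ℚ) (RatFunc ℚ)) 1 := by
    rw [map_pow, RatFunc.algebraMap_X, map_one]
    exact h
  have h2 := RatFunc.algebraMap_injective ℚ h1
  have h3 := congrArg Polynomial.natDegree h2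
  rw [Polynomial.natDegree_X_pow, Polynomial.natDegree_one] at h3
  omega

lemma qNum_eq (n : ℕ) : qNum n = qn q n := rfl

lemma qFactorial_eq (n : ℕ) : qFactorial n = qfact q n := rfl

lemma mem_NP_iff {x : RatFunc ℚ} : x ∈ NP q ↔ ∃ b : Polynomial ℕ, ofNatPoly b = x := by
  rw [mem_NP]
  have h : ∀ b : Polynomial ℕ, b.eval₂ (Nat.castRingHom (RatFunc ℚ)) q = ofNatPoly b := by
    intro b
    unfold ofNatPoly
    induction b using Polynomial.induction_on' with
    | add a b ha hb => rw [Polynomial.eval₂_add, ha, hb, Polynomial.map_add, map_add]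
    | monomial n a =>
      rw [Polynomial.eval₂_monomial, Polynomial.map_monomial,
        ← Polynomial.C_mul_X_pow_eq_monomial, map_mul, map_pow, RatFunc.algebraMap_X,
        RatFunc.algebraMap_C]
      unfold q
      simp
  simp only [h]

lemma qNum_injective : Function.Injective qNum := by
  intro m n h
  have h1 := one_sub_mul_qn q m
  have h2 := one_sub_mul_qn q n
  rw [← qNum_eq, h, qNum_eq, h2] at h1
  have h3 : q ^ m = q ^ n := by linear_combination h1
  have h4 : (algebraMap (Polynomial ℚ) (RatFunc ℚ)) (Polynomial.X ^ m) =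
      (algebraMap (Polynomial ℚ) (RatFunc ℚ)) (Polynomial.X ^ n) := by
    rw [map_pow, map_pow, RatFunc.algebraMap_X]
    exact h3
  have h5 := congrArg Polynomial.natDegree (RatFunc.algebraMap_injective ℚ h4)
  rwa [Polynomial.natDegree_X_pow, Polynomial.natDegree_X_pow] at h5

lemma unique {V : Type*} [Fintype V] {G : SimpleGraph V} {χ χ' : Polynomial (RatFunc ℚ)}
    (h : IsQChromatic G χ) (h' : IsQChromatic G χ') : χ' = χ := by
  apply Polynomial.eq_of_infinite_eval_eq
  apply Set.Infinite.mono (s := Set.range (fun n : ℕ => qNum (n + 1)))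
  · rintro x ⟨n, rfl⟩
    exact (h' (n + 1) (Nat.succ_pos n)).trans (h (n + 1) (Nat.succ_pos n)).symm
  · apply Set.infinite_range_of_injective
    intro m n hmn
    have := qNum_injective hmn
    omega

open Classical in
lemma qColorings_eq {V : Type*} [Fintype V] (G : SimpleGraph V) (n : ℕ) :
    qColorings G n = q ^ Fintype.card V * col q G univ n := by
  unfold qColorings col
  rw [mul_sum]
  refine sum_nbij' (fun c v => c v - 1) (fun c v => c v + 1) ?_ ?_ ?_ ?_ ?_
  · intro c hc
    rw [mem_filter] at hc ⊢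
    have hc1 : ∀ v, 1 ≤ c v ∧ c v ≤ n := fun v => mem_Icc.mp (Fintype.mem_piFinset.mp hc.1 v)
    refine ⟨mem_CC.mpr ⟨fun v _ => ?_, fun v hv => absurd (mem_univ v) hv⟩, ?_⟩
    · have := hc1 v
      omega
    · intro x _ y _ hxy h
      have h1 := hc1 x
      have h2 := hc1 y
      have h' : c x - 1 = c y - 1 := h
      exact hc.2 x y hxy (by omega)
  · intro c hc
    rw [mem_filter] at hc ⊢
    have hc1 := mem_CC.mp hc.1
    refine ⟨Fintype.mem_piFinset.mpr fun v => ?_, ?_⟩
    · have := hc1.1 v (mem_univ v)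
      rw [mem_Icc]
      omega
    · intro x y hxy h
      have h' : c x + 1 = c y + 1 := h
      exact hc.2 x (mem_univ x) y (mem_univ y) hxy (by omega)
  · intro c hc
    rw [mem_filter] at hc
    funext v
    have := mem_Icc.mp (Fintype.mem_piFinset.mp hc.1 v)
    change c v - 1 + 1 = c v
    omega
  · intro c _
    funext v
    rfl
  · intro c hc
    rw [mem_filter] at hc
    rw [← pow_add]
    congr 1
    rw [Fintype.card_eq_sum_ones, ← sum_add_distrib]
    apply sum_congr rfl
    intro v _
    have := mem_Icc.mp (Fintype.mem_piFinset.mp hc.1 v)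
    omega

open Classical in
/-- the polynomial -/
noncomputable def chi {V : Type*} [Fintype V] (G : SimpleGraph V) :
    Polynomial (RatFunc ℚ) :=
  Polynomial.C ((-q) ^ Fintype.card V) *
    ∑ J ∈ (univ : Finset V).powerset,
      Polynomial.C (T q G J univ * (-(1 - q)) ^ J.card) * Polynomial.X ^ J.card

open Classical in
lemma chi_spec {V : Type*} [Fintype V] (G : SimpleGraph V) :
    IsQChromatic G (chi G) := by
  intro n _
  rw [qColorings_eq, col_eq q_pow_ne_one]
  unfold chi E
  rw [Polynomial.eval_mul, Polynomial.eval_C, Polynomial.eval_finsetSum, card_univ,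
    neg_pow q, mul_comm ((-1 : RatFunc ℚ) ^ Fintype.card V), mul_assoc]
  congr 2
  apply sum_congr rfl
  intro J _
  rw [Polynomial.eval_mul, Polynomial.eval_C, Polynomial.eval_pow, Polynomial.eval_X]
  have h1 : q ^ n - 1 = -(1 - q) * qNum n := by
    have := one_sub_mul_qn q n
    rw [qNum_eq]
    linear_combination this
  rw [h1, mul_pow]
  ring

open Classical in
lemma coeff_pos {V : Type*} [Fintype V] (G : SimpleGraph V) (j : ℕ) :
    ∃ b : Polynomial ℕ, qFactorial (Fintype.card V) * (chi G).coeff j =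
      (-1) ^ (Fintype.card V + j) * ofNatPoly b := by
  have h1 : (chi G).coeff j = (-q) ^ Fintype.card V *
      ∑ J ∈ (univ : Finset V).powerset.filter (fun J => J.card = j),
        T q G J univ * (-(1 - q)) ^ j := by
    unfold chi
    rw [Polynomial.coeff_C_mul, Polynomial.finsetSum_coeff, sum_filter]
    congr 1
    apply sum_congr rfl
    intro J _
    rw [Polynomial.coeff_C_mul_X_pow]
    by_cases h : J.card = j
    · rw [if_pos h.symm, if_pos h, h]
    · rw [if_neg (Ne.symm h), if_neg h]
  have h2 : q ^ Fintype.card V * ∑ J ∈ (univ : Finset V).powerset.filter (fun J => J.card = j),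
      ((1 - q) ^ j * qfact q (Fintype.card V) * T q G J univ) ∈ NP q := by
    refine mul_mem (pow_mem (q_mem_NP q) _) (sum_mem ?_)
    intro J hJ
    rw [mem_filter] at hJ
    unfold T
    rw [mul_sum]
    apply sum_mem
    intro ρ hρ
    rw [mem_filter, mem_AO] at hρ
    have h3 := t_pos q_pow_ne_one (ρ := ρ) (J := J) (W := univ) hρ.1.acyc hρ.2
    rwa [inter_univ, hJ.2, card_univ] at h3
  obtain ⟨b, hb⟩ := mem_NP_iff.mp h2
  refine ⟨b, ?_⟩
  rw [hb, h1, qFactorial_eq, ← sum_mul, ← mul_sum, neg_pow q, neg_pow (1 - q), pow_add]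
  ring

end Pool.Agent.W_MP_9c9001_co.Final
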