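import Pool.Agent.W_MP_9c9001_co.Conv

open Finset

namespace Pool.Agent.W_MP_9c9001_co

variable {V : Type*} [DecidableEq V] [Fintype V] {K : Type*} [Field K]

/-- colorings of `W` with colors below `n`, extended by zero -/
def CC (W : Finset V) (n : ℕ) : Finset (V → ℕ) :=
  Fintype.piFinset (fun v => if v ∈ W then range n else {0})

lemma mem_CC {W : Finset V} {n : ℕ} {c : V → ℕ} :
    c ∈ CC W n ↔ (∀ v ∈ W, c v < n) ∧ ∀ v, v ∉ W → c v = 0 := by
  unfold CC
  rw [Fintype.mem_piFinset]
  constructor
  · intro h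
    refine ⟨fun v hv => ?_, fun v hv => ?_⟩
    · have := h v
      rw [if_pos hv, mem_range] at this
      exact this
    · have := h v
      rw [if_neg hv, mem_singleton] at this
      exact this
  · rintro ⟨h1, h2⟩ v
    by_cases hv : v ∈ W
    · rw [if_pos hv, mem_range]; exact h1 v hv
    · rw [if_neg hv, mem_singleton]; exact h2 v hv

/-- properness on `W` -/
def Proper (G : SimpleGraph V) (W : Finset V) (c : V → ℕ) : Prop :=
  ∀ x ∈ W, ∀ y ∈ W, G.Adj x y → c x ≠ c y

open Classical in
/-- weighted number of proper colorings -/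
noncomputable def col (q : K) (G : SimpleGraph V) (W : Finset V) (n : ℕ) : K :=
  ∑ c ∈ (CC W n).filter (Proper G W), q ^ (∑ v, c v)

lemma col_empty (q : K) (G : SimpleGraph V) (n : ℕ) : col q G ∅ n = 1 := by
  classical
  unfold col
  have h : (CC (∅ : Finset V) n).filter (Proper G ∅) = {fun _ => 0} := by
    ext c
    rw [mem_filter, mem_CC, mem_singleton]
    constructor
    · rintro ⟨⟨_, h⟩, _⟩
      funext v
      exact h v (notMem_empty _)
    · rintro rfl
      exact ⟨⟨fun v hv => absurd hv (notMem_empty _), fun _ _ => rfl⟩,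
        fun x hx => absurd hx (notMem_empty _)⟩
  rw [h]
  simp

lemma col_zero (q : K) (G : SimpleGraph V) {W : Finset V} (hW : W ≠ ∅) : col q G W 0 = 0 := by
  classical
  unfold col
  apply sum_eq_zero
  intro c hc
  rw [mem_filter, mem_CC] at hc
  obtain ⟨u, hu⟩ := nonempty_iff_ne_empty.mpr hW
  exact absurd (hc.1.1 u hu) (Nat.not_lt_zero _)

open Classical in
lemma col_succ (q : K) (G : SimpleGraph V) (W : Finset V) (n : ℕ) :
    col q G W (n + 1) = ∑ S ∈ W.powerset.filter (Stable G),
      q ^ (W \ S).card * col q G (W \ S) n := by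
  unfold col
  simp only [mul_sum]
  rw [sum_sigma']
  refine sum_bij' (fun c _ => (⟨W.filter (fun v => c v = 0), fun v => c v - 1⟩ :
      (_ : Finset V) × (V → ℕ)))
    (fun p _ => fun v => if v ∈ W \ p.1 then p.2 v + 1 else 0) ?_ ?_ ?_ ?_ ?_
  · intro c hc
    rw [mem_filter, mem_CC] at hc
    obtain ⟨⟨hc1, hc2⟩, hc3⟩ := hc
    simp only [mem_sigma, mem_filter, mem_powerset, mem_CC, mem_sdiff]
    refine ⟨⟨filter_subset _ _, ?_⟩, ⟨?_, ?_⟩, ?_⟩
    · intro x hx y hy hxy
      rw [mem_filter] at hx hy
      exact hc3 x hx.1 y hy.1 hxy (hx.2.trans hy.2.symm)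
    · rintro v ⟨hv, hv'⟩
      have h1 := hc1 v hv
      have h2 : c v ≠ 0 := fun h => hv' ⟨hv, h⟩
      omega
    · intro v hv
      by_cases hvW : v ∈ W
      · have h2 : c v = 0 := by
          by_contra h
          exact hv ⟨hvW, fun h' => h h'.2⟩
        omega
      · rw [hc2 v hvW]
    · intro x hx y hy hxy h
      simp only [mem_sdiff, mem_filter, not_and] at hx hy
      have h1 := hx.2 hx.1
      have h2 := hy.2 hy.1
      have h' : c x - 1 = c y - 1 := h
      exact hc3 x hx.1 y hy.1 hxy (by omega)
  · rintro ⟨S, c⟩ hp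
    simp only [mem_sigma, mem_filter, mem_powerset, mem_CC] at hp
    obtain ⟨⟨hS, hSs⟩, ⟨hc1, hc2⟩, hc3⟩ := hp
    rw [mem_filter, mem_CC]
    refine ⟨⟨?_, ?_⟩, ?_⟩
    · intro v _
      simp only
      split_ifs with h
      · have := hc1 v h
        omega
      · omega
    · intro v hv
      simp only
      rw [if_neg]
      exact fun h => hv (mem_sdiff.mp h).1
    · intro x hx y hy hxy
      simp only
      split_ifs with h1 h2 h2
      · intro h
        exact hc3 x h1 y h2 hxy (by omega)
      · omega
      · omega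
      · intro _
        have hxS : x ∈ S := by
          by_contra h
          exact h1 (mem_sdiff.mpr ⟨hx, h⟩)
        have hyS : y ∈ S := by
          by_contra h
          exact h2 (mem_sdiff.mpr ⟨hy, h⟩)
        exact hSs x hxS y hyS hxy
  · intro c hc
    rw [mem_filter, mem_CC] at hc
    obtain ⟨⟨hc1, hc2⟩, hc3⟩ := hc
    funext v
    simp only [mem_sdiff, mem_filter, not_and]
    by_cases hvW : v ∈ W
    · by_cases h0 : c v = 0
      · rw [if_neg, h0]
        rintro ⟨_, h⟩
        exact h hvW h0
      · rw [if_pos ⟨hvW, fun _ => h0⟩]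
        omega
    · rw [if_neg (fun h => hvW h.1), hc2 v hvW]
  · rintro ⟨S, c⟩ hp
    simp only [mem_sigma, mem_filter, mem_powerset, mem_CC] at hp
    obtain ⟨⟨hS, hSs⟩, ⟨hc1, hc2⟩, hc3⟩ := hp
    have e1 : W.filter (fun v => (if v ∈ W \ S then c v + 1 else 0) = 0) = S := by
      ext v
      rw [mem_filter]
      constructor
      · rintro ⟨h1, h2⟩
        by_contra h
        rw [if_pos (mem_sdiff.mpr ⟨h1, h⟩)] at h2
        omega
      · intro h
        refine ⟨hS h, ?_⟩
        rw [if_neg]
        exact fun h' => (mem_sdiff.mp h').2 h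
    have e2 : (fun v => (if v ∈ W \ S then c v + 1 else 0) - 1) = c := by
      funext v
      by_cases h : v ∈ W \ S
      · rw [if_pos h]; rfl
      · rw [if_neg h, hc2 v h]
    simp only [e1, e2]
  · intro c hc
    rw [mem_filter, mem_CC] at hc
    obtain ⟨⟨hc1, hc2⟩, hc3⟩ := hc
    rw [← pow_add]
    congr 1
    have e : ∀ v, c v = (if v ∈ W \ W.filter (fun v => c v = 0) then 1 else 0) + (c v - 1) := by
      intro v
      simp only [mem_sdiff, mem_filter, not_and]
      by_cases hvW : v ∈ W
      · by_cases h0 : c v = 0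
        · rw [if_neg, h0]
          rintro ⟨_, h⟩
          exact h hvW h0
        · rw [if_pos ⟨hvW, fun _ => h0⟩]
          omega
      · rw [if_neg (fun h => hvW h.1), hc2 v hvW]
    calc ∑ v, c v = ∑ v, ((if v ∈ W \ W.filter (fun v => c v = 0) then 1 else 0) + (c v - 1)) :=
          sum_congr rfl (fun v _ => e v)
      _ = _ := by
          rw [sum_add_distrib]
          congr 1
          rw [sum_ite_mem, univ_inter, card_eq_sum_ones]

theorem col_eq {q : K} (hq : ∀ n : ℕ, 0 < n → q ^ n ≠ 1) (G : SimpleGraph V) :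
    ∀ (n : ℕ) (W : Finset V), col q G W n = (-1) ^ W.card * E q G (q ^ n) W := by
  classical
  intro n
  induction n with
  | zero =>
    intro W
    rw [pow_zero]
    by_cases hW : W = ∅
    · subst hW
      rw [col_empty, E_empty]
      simp
    · rw [col_zero q G hW, E_one q G hW, mul_zero]
  | succ n ih =>
    intro W
    rw [col_succ, pow_succ', E_mul hq G (q ^ n) W]
    unfold conv sg s
    rw [mul_sum, sum_filter]
    apply sum_congr rfl
    intro S hS
    rw [mem_powerset] at hS
    rw [ih (W \ S)]
    split_ifs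
    · have h1 : W.card = (W \ S).card + S.card := by
        rw [card_sdiff_of_subset hS]
        have := card_le_card hS
        omega
      rw [h1, pow_add]
      have h2 : ((-1 : K) ^ S.card) * (-1) ^ S.card = 1 := by
        rw [← mul_pow]; simp
      linear_combination (-(q ^ (W \ S).card * (-1) ^ (W \ S).card * E q G (q ^ n) (W \ S))) * h2
    · simp

end Pool.Agent.W_MP_9c9001_co
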