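import Pool.Agent.W_MP_9c9001_co.Pos

open Finset

namespace Pool.Agent.W_MP_9c9001_co

variable {V : Type*} [DecidableEq V] {K : Type*} [Field K]

/-- convolution of set functions -/
def conv (f g : Finset V → K) (W : Finset V) : K := ∑ A ∈ W.powerset, f A * g (W \ A)

lemma conv_comm (f g : Finset V → K) : conv f g = conv g f := by
  funext W
  unfold conv
  refine sum_nbij' (fun A => W \ A) (fun A => W \ A) ?_ ?_ ?_ ?_ ?_
  · intro A _
    exact mem_powerset.mpr sdiff_subset
  · intro A _
    exact mem_powerset.mpr sdiff_subset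
  · intro A hA
    simpa using mem_powerset.mp hA
  · intro A hA
    simpa using mem_powerset.mp hA
  · intro A hA
    rw [Finset.sdiff_sdiff_eq_self (mem_powerset.mp hA), mul_comm]

lemma conv_assoc (f g h : Finset V → K) : conv (conv f g) h = conv f (conv g h) := by
  funext W
  unfold conv
  simp only [sum_mul, mul_sum]
  rw [sum_sigma', sum_sigma']
  refine sum_nbij' (fun p => ⟨p.2, p.1 \ p.2⟩) (fun p => ⟨p.1 ∪ p.2, p.1⟩) ?_ ?_ ?_ ?_ ?_
  · rintro ⟨A, B⟩ hp
    simp only [mem_sigma, mem_powerset] at hp ⊢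
    exact ⟨hp.2.trans hp.1, sdiff_subset_sdiff hp.1 (Subset.refl _)⟩
  · rintro ⟨B, C⟩ hp
    simp only [mem_sigma, mem_powerset] at hp ⊢
    exact ⟨union_subset hp.1 (hp.2.trans sdiff_subset), subset_union_left⟩
  · rintro ⟨A, B⟩ hp
    simp only [mem_sigma, mem_powerset] at hp ⊢
    rw [Finset.union_sdiff_of_subset hp.2]
  · rintro ⟨B, C⟩ hp
    simp only [mem_sigma, mem_powerset] at hp ⊢
    have hd : Disjoint B C := (disjoint_sdiff (s := B) (t := W)).mono_right hp.2
    rw [Finset.union_sdiff_cancel_left hd]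
  · rintro ⟨A, B⟩ hp
    simp only [mem_sigma, mem_powerset] at hp ⊢
    have h1 : (W \ B) \ (A \ B) = W \ A := by
      ext x
      simp only [mem_sdiff]
      constructor
      · rintro ⟨⟨h1, h2⟩, h3⟩
        exact ⟨h1, fun h4 => h3 ⟨h4, h2⟩⟩
      · rintro ⟨h1, h2⟩
        exact ⟨⟨h1, fun h3 => h2 (hp.2 h3)⟩, fun h3 => h2 h3.1⟩
    rw [h1, mul_assoc]

/-- twist -/
def sg (q : K) (f : Finset V → K) (A : Finset V) : K := q ^ A.card * f A

lemma sg_conv (q : K) (f g : Finset V → K) : sg q (conv f g) = conv (sg q f) (sg q g) := by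
  funext W
  unfold sg conv
  rw [mul_sum]
  apply sum_congr rfl
  intro A hA
  rw [mem_powerset] at hA
  have h1 : W.card = A.card + (W \ A).card := by
    rw [card_sdiff_of_subset hA]
    have := card_le_card hA
    omega
  rw [h1, pow_add]
  ring

lemma conv_unique {q : K} (hq : ∀ n : ℕ, 0 < n → q ^ n ≠ 1) {F X Y : Finset V → K}
    (hF : F ∅ = 1) (hX : X = conv F (sg q X)) (hY : Y = conv F (sg q Y)) (h0 : X ∅ = Y ∅) :
    ∀ (n : ℕ) (W : Finset V), W.card = n → X W = Y W := by
  intro n
  induction n using Nat.strong_induction_on with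
  | _ n ih =>
    intro W hn
    by_cases hW : W = ∅
    · rw [hW, h0]
    · have hne : (1 - q ^ W.card) ≠ 0 := by
        rw [sub_ne_zero]
        exact (hq _ (card_pos.mpr (nonempty_iff_ne_empty.mpr hW))).symm
      have e : ∀ Z : Finset V → K, Z = conv F (sg q Z) → (1 - q ^ W.card) * Z W =
          ∑ A ∈ W.powerset.erase ∅, F A * (q ^ (W \ A).card * Z (W \ A)) := by
        intro Z hZ
        have h1 := congrFun hZ W
        unfold conv sg at h1
        rw [← add_sum_erase _ _ (empty_mem_powerset W)] at h1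
        rw [hF, sdiff_empty] at h1
        linear_combination h1
      have h2 := e X hX
      have h3 := e Y hY
      have h4 : ∑ A ∈ W.powerset.erase ∅, F A * (q ^ (W \ A).card * X (W \ A)) =
          ∑ A ∈ W.powerset.erase ∅, F A * (q ^ (W \ A).card * Y (W \ A)) := by
        apply sum_congr rfl
        intro A hA
        rw [mem_erase, mem_powerset] at hA
        rw [ih (W \ A).card ?_ _ rfl]
        rw [← hn]
        apply card_lt_card
        exact sdiff_ssubset hA.2 (nonempty_iff_ne_empty.mpr hA.1)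
      rw [h4, ← h3] at h2
      exact mul_left_cancel₀ hne h2

lemma sum_powerset_split {M : Type*} [AddCommMonoid M] {A W : Finset V} (hA : A ⊆ W)
    (F : Finset V → Finset V → M) :
    ∑ J ∈ W.powerset, F (J ∩ A) (J ∩ (W \ A)) =
      ∑ J₁ ∈ A.powerset, ∑ J₂ ∈ (W \ A).powerset, F J₁ J₂ := by
  rw [← sum_product']
  refine sum_nbij' (fun J => (J ∩ A, J ∩ (W \ A))) (fun p => p.1 ∪ p.2) ?_ ?_ ?_ ?_ ?_
  · intro J _
    simp only [mem_product, mem_powerset]
    exact ⟨inter_subset_right, inter_subset_right⟩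
  · rintro ⟨J₁, J₂⟩ hp
    simp only [mem_product, mem_powerset] at hp ⊢
    exact union_subset (hp.1.trans hA) (hp.2.trans sdiff_subset)
  · intro J hJ
    rw [mem_powerset] at hJ
    ext x
    simp only [mem_union, mem_inter, mem_sdiff]
    constructor
    · rintro (h | h)
      · exact h.1
      · exact h.1
    · intro h
      by_cases hx : x ∈ A
      · exact Or.inl ⟨h, hx⟩
      · exact Or.inr ⟨h, hJ h, hx⟩
  · rintro ⟨J₁, J₂⟩ hp
    simp only [mem_product, mem_powerset] at hp
    have h1 : (J₁ ∪ J₂) ∩ A = J₁ := by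
      ext x
      simp only [mem_union, mem_inter]
      constructor
      · rintro ⟨h | h, h'⟩
        · exact h
        · exact absurd h' (mem_sdiff.mp (hp.2 h)).2
      · intro h
        exact ⟨Or.inl h, hp.1 h⟩
    have h2 : (J₁ ∪ J₂) ∩ (W \ A) = J₂ := by
      ext x
      simp only [mem_union, mem_inter]
      constructor
      · rintro ⟨h | h, h'⟩
        · exact absurd (hp.1 h) (mem_sdiff.mp h').2
        · exact h
      · intro h
        exact ⟨Or.inr h, hp.2 h⟩
    simp only [h1, h2]
  · intro J _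
    rfl

open Classical in
/-- number of acyclic orientations with all sources in `J` -/
noncomputable def AOJ (K : Type*) [Field K] (G : SimpleGraph V) (J A : Finset V) : K :=
  (((AO G A).filter (fun ρ => src ρ A ⊆ J)).card : K)

open Classical in
/-- the sum of the generating functions -/
noncomputable def T (q : K) (G : SimpleGraph V) (J W : Finset V) : K :=
  ∑ ρ ∈ (AO G W).filter (fun ρ => src ρ W ⊆ J), t q ρ J W

lemma cond_iff {G : SimpleGraph V} {W A J : Finset V} {ρ : Finset (V × V)} (hA : A ⊆ W)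
    (hρ : IsAO G W ρ) :
    (src ρ W ⊆ J ∧ Good ρ J W (W \ A)) ↔ (Down ρ A ∧ src ρ A ⊆ J ∧ src ρ (W \ A) ⊆ J) := by
  constructor
  · rintro ⟨h1, h2⟩
    have hd : Down ρ A := by
      intro x y hxy hy
      by_contra hx
      have h3 := hρ.sub x y hxy
      exact (mem_sdiff.mp (h2.2.1 x y hxy (mem_sdiff.mpr ⟨h3.1, hx⟩) h3.2.1)).2 hy
    refine ⟨hd, ?_, h2.2.2⟩
    intro u hu
    rw [mem_src] at hu
    apply h1
    rw [mem_src]
    exact ⟨hA hu.1, fun w _ hwu => hu.2 w (hd w u hwu hu.1) hwu⟩
  · rintro ⟨h1, h2, h3⟩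
    refine ⟨?_, sdiff_subset, ?_, h3⟩
    · intro u hu
      rw [mem_src] at hu
      by_cases hu' : u ∈ A
      · exact h2 (mem_src.mpr ⟨hu', fun w hw => hu.2 w (hA hw)⟩)
      · exact h3 (mem_src.mpr ⟨mem_sdiff.mpr ⟨hu.1, hu'⟩,
          fun w hw => hu.2 w (mem_sdiff.mp hw).1⟩)
    · intro x y hxy hx hy
      rw [mem_sdiff] at hx ⊢
      exact ⟨hy, fun hyA => hx.2 (h1 x y hxy hyA)⟩

open Classical in
lemma T_conv {q : K} (hq : ∀ n : ℕ, 0 < n → q ^ n ≠ 1) (G : SimpleGraph V) (J : Finset V) :
    T q G J = conv (AOJ K G J) (sg q (T q G J)) := by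
  funext W
  have h1 : T q G J W = ∑ ρ ∈ AO G W, ∑ A ∈ W.powerset,
      if (src ρ W ⊆ J ∧ Good ρ J W (W \ A)) then q ^ (W \ A).card * t q ρ J (W \ A) else 0 := by
    rw [T, sum_filter]
    apply sum_congr rfl
    intro ρ _
    by_cases hs : src ρ W ⊆ J
    · rw [if_pos hs, t_rec hq hs, sum_filter]
      refine sum_nbij' (fun A => W \ A) (fun A => W \ A) ?_ ?_ ?_ ?_ ?_
      · intro A _
        exact mem_powerset.mpr sdiff_subset
      · intro A _
        exact mem_powerset.mpr sdiff_subset
      · intro A hA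
        simpa using mem_powerset.mp hA
      · intro A hA
        simpa using mem_powerset.mp hA
      · intro A hA
        rw [Finset.sdiff_sdiff_eq_self (mem_powerset.mp hA)]
        simp only [hs, true_and]
    · rw [if_neg hs]
      symm
      apply sum_eq_zero
      intro A _
      rw [if_neg]
      exact fun h => hs h.1
  rw [h1, sum_comm]
  unfold conv
  apply sum_congr rfl
  intro A hA
  rw [mem_powerset] at hA
  have hd : Disjoint A (W \ A) := disjoint_sdiff
  have hU : A ∪ (W \ A) = W := union_sdiff_of_subset hA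
  have h2 : ∑ ρ ∈ AO G W, (if (src ρ W ⊆ J ∧ Good ρ J W (W \ A)) then
      q ^ (W \ A).card * t q ρ J (W \ A) else 0) =
      ∑ ρ ∈ (AO G (A ∪ (W \ A))).filter (fun ρ => Down ρ A),
        (fun ρ₁ ρ₂ => if (src ρ₁ A ⊆ J ∧ src ρ₂ (W \ A) ⊆ J) then
          q ^ (W \ A).card * t q ρ₂ J (W \ A) else 0) (res ρ A) (res ρ (W \ A)) := by
    rw [hU, sum_filter]
    apply sum_congr rfl
    intro ρ hρ
    rw [mem_AO] at hρ
    simp only [cond_iff hA hρ, src_res]
    rw [t_congr q (ρ := res ρ (W \ A)) (ρ' := ρ) (J := J) (J' := J) _ (W := W \ A) rfl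
      (res_res (Subset.refl _)) rfl]
    by_cases h3 : Down ρ A
    · simp only [h3, true_and, if_true]
    · simp only [h3, false_and, if_false]
  rw [h2, sum_AO_down hd (fun ρ₁ ρ₂ => if (src ρ₁ A ⊆ J ∧ src ρ₂ (W \ A) ⊆ J) then
          q ^ (W \ A).card * t q ρ₂ J (W \ A) else 0)]
  unfold AOJ sg T
  rw [card_filter, Nat.cast_sum, sum_mul]
  apply sum_congr rfl
  intro ρ₁ _
  by_cases h4 : src ρ₁ A ⊆ J
  · simp only [h4, true_and, if_true, Nat.cast_one, one_mul]
    rw [mul_sum, sum_filter]
  · simp only [h4, false_and, if_false, Nat.cast_zero, zero_mul, sum_const_zero]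

lemma AOJ_inter (G : SimpleGraph V) (J A : Finset V) : AOJ K G J A = AOJ K G (J ∩ A) A := by
  classical
  unfold AOJ
  congr 2
  apply filter_congr
  intro ρ _
  rw [subset_inter_iff]
  exact ⟨fun h => ⟨h, src_subset⟩, fun h => h.1⟩

lemma T_inter (q : K) (G : SimpleGraph V) (J A : Finset V) : T q G J A = T q G (J ∩ A) A := by
  classical
  unfold T
  have h : (AO G A).filter (fun ρ => src ρ A ⊆ J) = (AO G A).filter (fun ρ => src ρ A ⊆ J ∩ A) := by
    apply filter_congr
    intro ρ _
    rw [subset_inter_iff]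
    exact ⟨fun h => ⟨h, src_subset⟩, fun h => h.1⟩
  rw [h]
  apply sum_congr rfl
  intro ρ _
  apply t_congr q _ rfl rfl
  rw [inter_assoc, inter_self]

/-- evaluation functional -/
noncomputable def E (q : K) (G : SimpleGraph V) (v : K) (W : Finset V) : K :=
  ∑ J ∈ W.powerset, (v - 1) ^ J.card * T q G J W

/-- the auxiliary function -/
noncomputable def phi (G : SimpleGraph V) (v : K) (W : Finset V) : K :=
  ∑ J ∈ W.powerset, (v - 1) ^ J.card * AOJ K G J W

lemma E_conv {q : K} (hq : ∀ n : ℕ, 0 < n → q ^ n ≠ 1) (G : SimpleGraph V) (v : K) :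
    E q G v = conv (phi G v) (sg q (E q G v)) := by
  funext W
  have h1 : E q G v W = ∑ J ∈ W.powerset, ∑ A ∈ W.powerset,
      (v - 1) ^ J.card * (AOJ K G J A * (q ^ (W \ A).card * T q G J (W \ A))) := by
    unfold E
    apply sum_congr rfl
    intro J _
    have h0 := congrFun (T_conv hq G J) W
    unfold conv sg at h0
    rw [h0, mul_sum]
  rw [h1, sum_comm]
  unfold conv
  apply sum_congr rfl
  intro A hA
  rw [mem_powerset] at hA
  have h2 : ∀ J ∈ W.powerset,
      (v - 1) ^ J.card * (AOJ K G J A * (q ^ (W \ A).card * T q G J (W \ A))) =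
      (fun J₁ J₂ => ((v - 1) ^ J₁.card * AOJ K G J₁ A) *
        (q ^ (W \ A).card * ((v - 1) ^ J₂.card * T q G J₂ (W \ A)))) (J ∩ A) (J ∩ (W \ A)) := by
    intro J hJ
    rw [mem_powerset] at hJ
    simp only
    rw [AOJ_inter G J A, T_inter q G J (W \ A)]
    have h3 : J.card = (J ∩ A).card + (J ∩ (W \ A)).card := by
      rw [← card_union_of_disjoint]
      · congr 1
        ext x
        simp only [mem_union, mem_inter, mem_sdiff]
        constructor
        · intro h
          by_cases hx : x ∈ A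
          · exact Or.inl ⟨h, hx⟩
          · exact Or.inr ⟨h, hJ h, hx⟩
        · rintro (h | h)
          · exact h.1
          · exact h.1
      · exact (disjoint_sdiff (s := A) (t := W)).mono inter_subset_right inter_subset_right
    rw [h3, pow_add]
    ring
  rw [sum_congr rfl h2, sum_powerset_split hA (fun J₁ J₂ => ((v - 1) ^ J₁.card * AOJ K G J₁ A) *
        (q ^ (W \ A).card * ((v - 1) ^ J₂.card * T q G J₂ (W \ A))))]
  unfold phi sg E
  rw [sum_mul]
  apply sum_congr rfl
  intro J₁ _
  rw [mul_sum, mul_sum]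

/-- stable sets -/
def Stable (G : SimpleGraph V) (U : Finset V) : Prop := ∀ x ∈ U, ∀ y ∈ U, ¬ G.Adj x y

open Classical in
/-- signed indicator of stable sets -/
noncomputable def s (K : Type*) [Field K] (G : SimpleGraph V) (U : Finset V) : K :=
  if Stable G U then (-1) ^ U.card else 0

/-- weighted count of acyclic orientations -/
noncomputable def av (G : SimpleGraph V) (v : K) (A : Finset V) : K :=
  v ^ A.card * ((AO G A).card : K)

lemma AO_stable {G : SimpleGraph V} {U : Finset V} (h : Stable G U) : AO G U = {∅} := by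
  ext ρ
  rw [mem_AO, mem_singleton]
  constructor
  · intro h1
    by_contra hne
    obtain ⟨⟨x, y⟩, hxy⟩ := nonempty_iff_ne_empty.mpr hne
    have := h1.sub x y hxy
    exact h x this.1 y this.2.1 this.2.2
  · rintro rfl
    refine ⟨fun x y h1 => absurd h1 (notMem_empty _), ?_, ?_⟩
    · intro x hx y hy hxy
      exact absurd hxy (h x hx y hy)
    · rintro A _ ⟨u, hu⟩
      exact ⟨u, hu, fun w _ => notMem_empty _⟩

open Classical in
lemma card_src {G : SimpleGraph V} {U A : Finset V} (hU : U ⊆ A) :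
    (((AO G A).filter (fun ρ => U ⊆ src ρ A)).card : K) =
      if Stable G U then ((AO G (A \ U)).card : K) else 0 := by
  by_cases h : Stable G U
  · rw [if_pos h]
    have hd : Disjoint U (A \ U) := disjoint_sdiff
    have h1 := sum_AO_down (M := K) (G := G) hd (fun _ _ => 1)
    rw [AO_stable h, sum_singleton, union_sdiff_of_subset hU] at h1
    rw [sum_const, sum_const, nsmul_one, nsmul_one] at h1
    rw [← h1]
    congr 2
    apply filter_congr
    intro ρ hρ
    rw [mem_AO] at hρ
    constructor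
    · intro h2 x y hxy hy
      exact absurd hxy ((mem_src.mp (h2 hy)).2 x (hρ.sub x y hxy).1)
    · intro h2 u hu
      rw [mem_src]
      exact ⟨hU hu, fun w _ hwu => h w (h2 w u hwu hu) u hu (hρ.sub w u hwu).2.2⟩
  · rw [if_neg h]
    unfold Stable at h
    push Not at h
    obtain ⟨x, hx, y, hy, hxy⟩ := h
    have h1 : (AO G A).filter (fun ρ => U ⊆ src ρ A) = ∅ := by
      rw [filter_eq_empty_iff]
      intro ρ hρ h2
      rw [mem_AO] at hρ
      rcases hρ.tot x (hU hx) y (hU hy) hxy with h3 | h3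
      · exact (mem_src.mp (h2 hy)).2 x (hU hx) h3
      · exact (mem_src.mp (h2 hx)).2 y (hU hy) h3
    rw [h1]
    simp

lemma sum_above {v : K} {S A : Finset V} (hS : S ⊆ A) :
    ∑ J ∈ A.powerset.filter (fun J => S ⊆ J), (v - 1) ^ J.card =
      (v - 1) ^ S.card * v ^ (A \ S).card := by
  have h0 := Finset.sum_pow_mul_eq_add_pow (v - 1) 1 (A \ S)
  rw [sub_add_cancel] at h0
  rw [← h0, mul_sum]
  refine sum_nbij' (fun J => J \ S) (fun J => J ∪ S) ?_ ?_ ?_ ?_ ?_
  · intro J hJ
    rw [mem_filter, mem_powerset] at hJ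
    exact mem_powerset.mpr (sdiff_subset_sdiff hJ.1 (Subset.refl _))
  · intro J hJ
    rw [mem_powerset] at hJ
    exact mem_filter.mpr ⟨mem_powerset.mpr (union_subset (hJ.trans sdiff_subset) hS),
      subset_union_right⟩
  · intro J hJ
    rw [mem_filter, mem_powerset] at hJ
    exact sdiff_union_of_subset hJ.2
  · intro J hJ
    rw [mem_powerset] at hJ
    have hd : Disjoint J S := (sdiff_disjoint (s := S) (t := A)).mono_left hJ
    exact Finset.union_sdiff_cancel_right hd
  · intro J hJ
    rw [mem_filter, mem_powerset] at hJ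
    have h1 : J.card = S.card + (J \ S).card := by
      rw [card_sdiff_of_subset hJ.2]
      have := card_le_card hJ.2
      omega
    rw [one_pow, mul_one, ← pow_add, ← h1]

lemma sum_below {v : K} {S A : Finset V} (hS : S ⊆ A) :
    ∑ U ∈ S.powerset, (-1) ^ U.card * v ^ (A \ U).card =
      (v - 1) ^ S.card * v ^ (A \ S).card := by
  have h0 := Finset.sum_pow_mul_eq_add_pow (-1) v S
  rw [neg_add_eq_sub] at h0
  rw [← h0, sum_mul]
  apply sum_congr rfl
  intro U hU
  rw [mem_powerset] at hU
  have h1 : (A \ U).card = (S.card - U.card) + (A \ S).card := by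
    rw [card_sdiff_of_subset (hU.trans hS), card_sdiff_of_subset hS]
    have := card_le_card hS
    have := card_le_card hU
    omega
  rw [h1, pow_add]
  ring

lemma phi_conv (G : SimpleGraph V) (v : K) : phi G v = conv (s K G) (av G v) := by
  classical
  funext A
  have h1 : phi G v A = ∑ ρ ∈ AO G A, ∑ J ∈ A.powerset.filter (fun J => src ρ A ⊆ J),
      (v - 1) ^ J.card := by
    unfold phi AOJ
    simp only [sum_filter]
    rw [sum_comm]
    apply sum_congr rfl
    intro J _
    rw [card_filter, Nat.cast_sum, mul_sum]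
    apply sum_congr rfl
    intro ρ _
    split_ifs <;> simp
  have h2 : ∀ ρ ∈ AO G A, ∑ J ∈ A.powerset.filter (fun J => src ρ A ⊆ J), (v - 1) ^ J.card =
      ∑ U ∈ A.powerset, if U ⊆ src ρ A then (-1) ^ U.card * v ^ (A \ U).card else 0 := by
    intro ρ _
    rw [sum_above src_subset, ← sum_below src_subset, ← sum_filter]
    apply sum_congr _ (fun _ _ => rfl)
    ext U
    rw [mem_filter, mem_powerset, mem_powerset]
    exact ⟨fun h => ⟨h.trans src_subset, h⟩, fun h => h.2⟩
  rw [h1, sum_congr rfl h2, sum_comm]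
  unfold conv
  apply sum_congr rfl
  intro U hU
  rw [mem_powerset] at hU
  rw [← sum_filter, sum_const, nsmul_eq_mul, card_src hU]
  unfold s av
  split_ifs
  · ring
  · simp

omit [DecidableEq V] in
lemma av_mul (G : SimpleGraph V) (q v : K) : av G (q * v) = sg q (av G v) := by
  funext A
  unfold av sg
  rw [mul_pow]
  ring

lemma AO_empty (G : SimpleGraph V) : AO G (∅ : Finset V) = {∅} :=
  AO_stable (fun _ hx => absurd hx (notMem_empty _))

lemma T_empty (q : K) (G : SimpleGraph V) (J : Finset V) : T q G J ∅ = 1 := by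
  classical
  unfold T
  rw [AO_empty]
  have h : ({∅} : Finset (Finset (V × V))).filter (fun ρ => src ρ (∅ : Finset V) ⊆ J) = {∅} := by
    apply filter_true_of_mem
    intro ρ _ u hu
    exact absurd (src_subset hu) (notMem_empty _)
  rw [h, sum_singleton, t_empty]

lemma E_empty (q : K) (G : SimpleGraph V) (v : K) : E q G v ∅ = 1 := by
  unfold E
  simp [T_empty]

theorem E_mul {q : K} (hq : ∀ n : ℕ, 0 < n → q ^ n ≠ 1) (G : SimpleGraph V) (v : K)
    (W : Finset V) : E q G (q * v) W = conv (s K G) (sg q (E q G v)) W := by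
  have hs : s K G ∅ = 1 := by
    unfold s
    rw [if_pos]
    · simp
    · exact fun x hx => absurd hx (notMem_empty _)
  have hphi : phi G (q * v) ∅ = 1 := by
    rw [phi_conv]
    unfold conv av
    simp [hs, AO_empty]
  set X := conv (s K G) (sg q (E q G v)) with hX
  have h1 : E q G v = conv (av G v) X := by
    have h2 := E_conv hq G v
    rw [phi_conv, conv_comm (s K G), conv_assoc] at h2
    exact h2
  have h3 : X = conv (phi G (q * v)) (sg q X) := by
    rw [phi_conv, av_mul, conv_assoc, ← sg_conv, ← h1]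
  refine conv_unique hq hphi (E_conv hq G (q * v)) h3 ?_ W.card W rfl
  rw [E_empty, hX]
  unfold conv sg
  simp [hs, E_empty]

lemma E_one (q : K) (G : SimpleGraph V) {W : Finset V} (hW : W ≠ ∅) : E q G 1 W = 0 := by
  classical
  unfold E
  apply sum_eq_zero
  intro J _
  by_cases hJ : J = ∅
  · subst hJ
    have h : (AO G W).filter (fun ρ => src ρ W ⊆ ∅) = ∅ := by
      rw [filter_eq_empty_iff]
      intro ρ hρ h
      rw [mem_AO] at hρ
      obtain ⟨u, hu, hu'⟩ := hρ.acyc W (Subset.refl _) (nonempty_iff_ne_empty.mpr hW)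
      exact absurd (h (mem_src.mpr ⟨hu, hu'⟩)) (notMem_empty _)
    unfold T
    rw [h]
    simp
  · have : J.card ≠ 0 := by
      rw [Ne, card_eq_zero]; exact hJ
    rw [sub_self, zero_pow this, zero_mul]

end Pool.Agent.W_MP_9c9001_co
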