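import Mathlib

open Finset

namespace Pool.Agent.W_MP_9c9001_co

variable {V : Type*} [DecidableEq V]

/-- acyclic orientation of the induced graph on `W`, as a finite set of ordered pairs -/
structure IsAO (G : SimpleGraph V) (W : Finset V) (ρ : Finset (V × V)) : Prop where
  sub : ∀ x y, (x, y) ∈ ρ → x ∈ W ∧ y ∈ W ∧ G.Adj x y
  tot : ∀ x ∈ W, ∀ y ∈ W, G.Adj x y → (x, y) ∈ ρ ∨ (y, x) ∈ ρ
  acyc : ∀ A ⊆ W, A.Nonempty → ∃ u ∈ A, ∀ w ∈ A, (w, u) ∉ ρ

/-- restriction of a relation -/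
def res (ρ : Finset (V × V)) (A : Finset V) : Finset (V × V) :=
  ρ.filter (fun p => p.1 ∈ A ∧ p.2 ∈ A)

lemma mem_res {ρ : Finset (V × V)} {A : Finset V} {x y : V} :
    (x, y) ∈ res ρ A ↔ (x, y) ∈ ρ ∧ x ∈ A ∧ y ∈ A := by
  simp [res]

open Classical in
/-- combination of two orientations, cross edges going from `A` to `B` -/
noncomputable def comb (G : SimpleGraph V) (A B : Finset V) (ρ₁ ρ₂ : Finset (V × V)) :
    Finset (V × V) :=
  ρ₁ ∪ ρ₂ ∪ (A ×ˢ B).filter (fun p => G.Adj p.1 p.2)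

lemma mem_comb {G : SimpleGraph V} {A B : Finset V} {ρ₁ ρ₂ : Finset (V × V)} {x y : V} :
    (x, y) ∈ comb G A B ρ₁ ρ₂ ↔
      (x, y) ∈ ρ₁ ∨ (x, y) ∈ ρ₂ ∨ (x ∈ A ∧ y ∈ B ∧ G.Adj x y) := by
  simp only [comb, mem_union, mem_filter, mem_product]
  tauto

/-- `A` is closed under predecessors -/
def Down (ρ : Finset (V × V)) (A : Finset V) : Prop := ∀ x y, (x, y) ∈ ρ → y ∈ A → x ∈ A

lemma IsAO.res {G : SimpleGraph V} {W A : Finset V} {ρ : Finset (V × V)} (h : IsAO G W ρ)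
    (hA : A ⊆ W) : IsAO G A (res ρ A) where
  sub x y hxy := by
    rw [mem_res] at hxy
    exact ⟨hxy.2.1, hxy.2.2, (h.sub x y hxy.1).2.2⟩
  tot x hx y hy hxy := by
    rcases h.tot x (hA hx) y (hA hy) hxy with h1 | h1
    · left; rw [mem_res]; exact ⟨h1, hx, hy⟩
    · right; rw [mem_res]; exact ⟨h1, hy, hx⟩
  acyc B hB hne := by
    obtain ⟨u, hu, h1⟩ := h.acyc B (hB.trans hA) hne
    exact ⟨u, hu, fun w hw hwu => h1 w hw (mem_res.mp hwu).1⟩

lemma IsAO.comb {G : SimpleGraph V} {A B : Finset V} {ρ₁ ρ₂ : Finset (V × V)}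
    (hd : Disjoint A B) (h₁ : IsAO G A ρ₁) (h₂ : IsAO G B ρ₂) :
    IsAO G (A ∪ B) (comb G A B ρ₁ ρ₂) where
  sub x y hxy := by
    rw [mem_comb] at hxy
    rcases hxy with h | h | ⟨h, h', h''⟩
    · have := h₁.sub x y h
      exact ⟨mem_union_left _ this.1, mem_union_left _ this.2.1, this.2.2⟩
    · have := h₂.sub x y h
      exact ⟨mem_union_right _ this.1, mem_union_right _ this.2.1, this.2.2⟩
    · exact ⟨mem_union_left _ h, mem_union_right _ h', h''⟩
  tot x hx y hy hxy := by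
    rw [mem_union] at hx hy
    rw [mem_comb, mem_comb]
    rcases hx with hx | hx <;> rcases hy with hy | hy
    · rcases h₁.tot x hx y hy hxy with h | h
      · exact Or.inl (Or.inl h)
      · exact Or.inr (Or.inl h)
    · exact Or.inl (Or.inr (Or.inr ⟨hx, hy, hxy⟩))
    · exact Or.inr (Or.inr (Or.inr ⟨hy, hx, hxy.symm⟩))
    · rcases h₂.tot x hx y hy hxy with h | h
      · exact Or.inl (Or.inr (Or.inl h))
      · exact Or.inr (Or.inr (Or.inl h))
  acyc X hX hne := by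
    by_cases hXA : (X ∩ A).Nonempty
    · obtain ⟨u, hu, h1⟩ := h₁.acyc (X ∩ A) inter_subset_right hXA
      rw [mem_inter] at hu
      refine ⟨u, hu.1, fun w hw hwu => ?_⟩
      rw [mem_comb] at hwu
      rcases hwu with h | h | ⟨h, h', h''⟩
      · exact h1 w (mem_inter.mpr ⟨hw, (h₁.sub w u h).1⟩) h
      · exact (Finset.disjoint_left.mp hd) hu.2 (h₂.sub w u h).2.1
      · exact (Finset.disjoint_left.mp hd) hu.2 h'
    · have hXB : X ⊆ B := by
        intro x hx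
        rcases mem_union.mp (hX hx) with h | h
        · exact absurd ⟨x, mem_inter.mpr ⟨hx, h⟩⟩ hXA
        · exact h
      obtain ⟨u, hu, h1⟩ := h₂.acyc X hXB hne
      refine ⟨u, hu, fun w hw hwu => ?_⟩
      rw [mem_comb] at hwu
      rcases hwu with h | h | ⟨h, h', h''⟩
      · exact (Finset.disjoint_left.mp hd) (h₁.sub w u h).2.1 (hXB hu)
      · exact h1 w hw h
      · exact hXA ⟨w, mem_inter.mpr ⟨hw, h⟩⟩

lemma comb_res {G : SimpleGraph V} {A B : Finset V} {ρ : Finset (V × V)}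
    (hd : Disjoint A B) (h : IsAO G (A ∪ B) ρ) (hA : Down ρ A) :
    comb G A B (res ρ A) (res ρ B) = ρ := by
  ext ⟨x, y⟩
  rw [mem_comb, mem_res, mem_res]
  constructor
  · rintro (h1 | h1 | ⟨h1, h2, h3⟩)
    · exact h1.1
    · exact h1.1
    · rcases h.tot x (mem_union_left _ h1) y (mem_union_right _ h2) h3 with h4 | h4
      · exact h4
      · exact absurd h2 (Finset.disjoint_left.mp hd (hA y x h4 h1))
  · intro hxy
    have hs := h.sub x y hxy
    rcases mem_union.mp hs.1 with hx | hx <;> rcases mem_union.mp hs.2.1 with hy | hy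
    · exact Or.inl ⟨hxy, hx, hy⟩
    · exact Or.inr (Or.inr ⟨hx, hy, hs.2.2⟩)
    · exact absurd hx (Finset.disjoint_left.mp hd (hA x y hxy hy))
    · exact Or.inr (Or.inl ⟨hxy, hx, hy⟩)

lemma res_comb_left {G : SimpleGraph V} {A B : Finset V} {ρ₁ ρ₂ : Finset (V × V)}
    (hd : Disjoint A B) (h₁ : IsAO G A ρ₁) (h₂ : IsAO G B ρ₂) :
    res (comb G A B ρ₁ ρ₂) A = ρ₁ := by
  ext ⟨x, y⟩
  rw [mem_res, mem_comb]
  constructor
  · rintro ⟨h | h | ⟨h, h', h''⟩, hx, hy⟩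
    · exact h
    · exact absurd (h₂.sub x y h).1 (Finset.disjoint_left.mp hd hx)
    · exact absurd h' (Finset.disjoint_left.mp hd hy)
  · intro h
    exact ⟨Or.inl h, (h₁.sub x y h).1, (h₁.sub x y h).2.1⟩

lemma res_comb_right {G : SimpleGraph V} {A B : Finset V} {ρ₁ ρ₂ : Finset (V × V)}
    (hd : Disjoint A B) (h₁ : IsAO G A ρ₁) (h₂ : IsAO G B ρ₂) :
    res (comb G A B ρ₁ ρ₂) B = ρ₂ := by
  ext ⟨x, y⟩
  rw [mem_res, mem_comb]
  constructor
  · rintro ⟨h | h | ⟨h, h', h''⟩, hx, hy⟩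
    · exact absurd hx (Finset.disjoint_left.mp hd (h₁.sub x y h).1)
    · exact h
    · exact absurd hx (Finset.disjoint_left.mp hd h)
  · intro h
    exact ⟨Or.inr (Or.inl h), (h₂.sub x y h).1, (h₂.sub x y h).2.1⟩

lemma down_comb {G : SimpleGraph V} {A B : Finset V} {ρ₁ ρ₂ : Finset (V × V)}
    (hd : Disjoint A B) (h₁ : IsAO G A ρ₁) (h₂ : IsAO G B ρ₂) :
    Down (comb G A B ρ₁ ρ₂) A := by
  intro x y hxy hy
  rw [mem_comb] at hxy
  rcases hxy with h | h | ⟨h, h', h''⟩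
  · exact (h₁.sub x y h).1
  · exact absurd (h₂.sub x y h).2.1 (Finset.disjoint_left.mp hd hy)
  · exact h

open Classical in
/-- the finite set of acyclic orientations of the induced graph on `W` -/
noncomputable def AO (G : SimpleGraph V) (W : Finset V) : Finset (Finset (V × V)) :=
  ((W ×ˢ W).powerset).filter (IsAO G W)

lemma mem_AO {G : SimpleGraph V} {W : Finset V} {ρ : Finset (V × V)} :
    ρ ∈ AO G W ↔ IsAO G W ρ := by
  classical
  simp only [AO, mem_filter, mem_powerset, and_iff_right_iff_imp]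
  intro h p hp
  have := h.sub p.1 p.2 hp
  exact mem_product.mpr ⟨this.1, this.2.1⟩

open Classical in
lemma sum_AO_down {M : Type*} [AddCommMonoid M] {G : SimpleGraph V} {A B : Finset V}
    (hd : Disjoint A B) (F : Finset (V × V) → Finset (V × V) → M) :
    ∑ ρ ∈ (AO G (A ∪ B)).filter (fun ρ => Down ρ A), F (res ρ A) (res ρ B) =
      ∑ ρ₁ ∈ AO G A, ∑ ρ₂ ∈ AO G B, F ρ₁ ρ₂ := by
  rw [← Finset.sum_product']
  refine Finset.sum_nbij' (fun ρ => (res ρ A, res ρ B)) (fun p => comb G A B p.1 p.2) ?_ ?_ ?_ ?_ ?_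
  · intro ρ hρ
    rw [mem_filter, mem_AO] at hρ
    rw [mem_product, mem_AO, mem_AO]
    exact ⟨hρ.1.res subset_union_left, hρ.1.res subset_union_right⟩
  · rintro ⟨ρ₁, ρ₂⟩ hp
    rw [mem_product, mem_AO, mem_AO] at hp
    rw [mem_filter, mem_AO]
    exact ⟨IsAO.comb hd hp.1 hp.2, down_comb hd hp.1 hp.2⟩
  · intro ρ hρ
    rw [mem_filter, mem_AO] at hρ
    exact comb_res hd hρ.1 hρ.2
  · rintro ⟨ρ₁, ρ₂⟩ hp
    rw [mem_product, mem_AO, mem_AO] at hp
    simp only [res_comb_left hd hp.1 hp.2, res_comb_right hd hp.1 hp.2]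
  · intro ρ _
    rfl

/-- sources -/
def src (ρ : Finset (V × V)) (W : Finset V) : Finset V := W.filter (fun u => ∀ w ∈ W, (w, u) ∉ ρ)

lemma mem_src {ρ : Finset (V × V)} {W : Finset V} {u : V} :
    u ∈ src ρ W ↔ u ∈ W ∧ ∀ w ∈ W, (w, u) ∉ ρ := by
  simp [src]

lemma src_subset {ρ : Finset (V × V)} {W : Finset V} : src ρ W ⊆ W := filter_subset _ _

lemma src_res {ρ : Finset (V × V)} {W : Finset V} : src (res ρ W) W = src ρ W := by
  ext u
  rw [mem_src, mem_src]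
  constructor
  · rintro ⟨h1, h2⟩
    exact ⟨h1, fun w hw h => h2 w hw (mem_res.mpr ⟨h, hw, h1⟩)⟩
  · rintro ⟨h1, h2⟩
    exact ⟨h1, fun w hw h => h2 w hw (mem_res.mp h).1⟩

end Pool.Agent.W_MP_9c9001_co
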