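import Pool.Agent.W_MP_9c9001_co.TFun

open Finset Polynomial

namespace Pool.Agent.W_MP_9c9001_co

variable {V : Type*} [DecidableEq V] {K : Type*} [Field K]

open Classical in
/-- union of all good subsets of `W` avoiding `u` -/
noncomputable def next (ρ : Finset (V × V)) (J W : Finset V) (u : V) : Finset V :=
  (W.powerset.filter (fun A => Good ρ J W A ∧ u ∉ A)).biUnion id

lemma mem_next {ρ : Finset (V × V)} {J W : Finset V} {u v : V} :
    v ∈ next ρ J W u ↔ ∃ A, Good ρ J W A ∧ u ∉ A ∧ v ∈ A := by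
  classical
  simp only [next, mem_biUnion, mem_filter, mem_powerset, id]
  constructor
  · rintro ⟨A, ⟨_, h2, h3⟩, h4⟩
    exact ⟨A, h2, h3, h4⟩
  · rintro ⟨A, h2, h3, h4⟩
    exact ⟨A, ⟨h2.1, h2, h3⟩, h4⟩

lemma next_subset {ρ : Finset (V × V)} {J W : Finset V} {u : V} : next ρ J W u ⊆ W := by
  intro v hv
  obtain ⟨A, h, _, h'⟩ := mem_next.mp hv
  exact h.1 h'

lemma notMem_next {ρ : Finset (V × V)} {J W : Finset V} {u : V} : u ∉ next ρ J W u := by
  intro hv
  obtain ⟨A, _, h, h'⟩ := mem_next.mp hv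
  exact h h'

lemma next_good {ρ : Finset (V × V)} {J W : Finset V} {u : V} :
    Good ρ J W (next ρ J W u) := by
  refine ⟨next_subset, ?_, ?_⟩
  · intro x y hxy hx hy
    obtain ⟨A, h, h', h''⟩ := mem_next.mp hx
    exact mem_next.mpr ⟨A, h, h', h.2.1 x y hxy h'' hy⟩
  · intro x hx
    rw [mem_src] at hx
    obtain ⟨A, h, h', h''⟩ := mem_next.mp hx.1
    apply h.2.2
    rw [mem_src]
    exact ⟨h'', fun w hw => hx.2 w (mem_next.mpr ⟨A, h, h', hw⟩)⟩

lemma good_next_iff {ρ : Finset (V × V)} {J W W' : Finset V} {u : V} :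
    Good ρ J (next ρ J W u) W' ↔ Good ρ J W W' ∧ u ∉ W' := by
  constructor
  · intro h
    refine ⟨⟨h.1.trans next_subset, ?_, h.2.2⟩, fun hu => notMem_next (h.1 hu)⟩
    intro x y hxy hx hy
    exact h.2.1 x y hxy hx (next_good.2.1 x y hxy (h.1 hx) hy)
  · rintro ⟨h, hu⟩
    have h1 : W' ⊆ next ρ J W u := fun x hx => mem_next.mpr ⟨W', h, hu, hx⟩
    exact ⟨h1, fun x y hxy hx hy => h.2.1 x y hxy hx (next_subset hy), h.2.2⟩

lemma mem_next_of_mem {ρ : Finset (V × V)} {J W : Finset V} {u v : V} (hu : u ∈ src ρ W)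
    (hv : v ∈ W) (hvJ : v ∈ J) (hvu : v ≠ u) : v ∈ next ρ J W u := by
  classical
  rw [mem_next]
  let r : V → V → Prop := fun x y => x ∈ W ∧ y ∈ W ∧ (x, y) ∈ ρ
  refine ⟨W.filter (fun w => Relation.ReflTransGen r v w), ⟨filter_subset _ _, ?_, ?_⟩, ?_, ?_⟩
  · intro x y hxy hx hy
    rw [mem_filter] at hx ⊢
    exact ⟨hy, hx.2.tail ⟨hx.1, hy, hxy⟩⟩
  · intro w hw
    rw [mem_src, mem_filter] at hw
    rcases Relation.ReflTransGen.cases_tail hw.1.2 with h | ⟨c, hc, hcw⟩
    · rw [h]; exact hvJ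
    · exact absurd hcw.2.2 (hw.2 c (mem_filter.mpr ⟨hcw.1, hc⟩))
  · intro h
    rw [mem_filter] at h
    rw [mem_src] at hu
    rcases Relation.ReflTransGen.cases_tail h.2 with h1 | ⟨c, hc, hcw⟩
    · exact hvu h1.symm
    · exact hu.2 c hcw.1 hcw.2.2
  · rw [mem_filter]
    exact ⟨hv, Relation.ReflTransGen.refl⟩

lemma card_next_lt {ρ : Finset (V × V)} {J W : Finset V} {u : V} (hu : u ∈ W) :
    (next ρ J W u).card < W.card :=
  card_lt_card ⟨next_subset, fun h => notMem_next (h hu)⟩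

lemma inter_next {ρ : Finset (V × V)} {J W : Finset V} {u : V} (hu : u ∈ src ρ W) :
    J ∩ next ρ J W u = (J ∩ W).erase u := by
  ext x
  rw [mem_inter, mem_erase, mem_inter]
  constructor
  · rintro ⟨h1, h2⟩
    exact ⟨fun h => notMem_next (h ▸ h2), h1, next_subset h2⟩
  · rintro ⟨h1, h2, h3⟩
    exact ⟨h2, mem_next_of_mem hu h3 h2 h1⟩

/-- the descent-refined generating function -/
noncomputable def D (q : K) (ρ : Finset (V × V)) (J : Finset V) (ω : V → ℕ) (W : Finset V)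
    (a : ℕ) : K :=
  if W = ∅ then 1 else
    (1 - q ^ W.card)⁻¹ *
      ∑ u ∈ (src ρ W).attach, (if ω u.1 < a then q ^ W.card else 1) *
        D q ρ J ω (next ρ J W u.1) (ω u.1)
termination_by W.card
decreasing_by
  exact card_next_lt (src_subset u.2)

lemma D_empty (q : K) (ρ : Finset (V × V)) (J : Finset V) (ω : V → ℕ) (a : ℕ) :
    D q ρ J ω ∅ a = 1 := by
  rw [D]; simp

lemma D_eq (q : K) (ρ : Finset (V × V)) (J : Finset V) (ω : V → ℕ) {W : Finset V}
    (hW : W ≠ ∅) (a : ℕ) :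
    D q ρ J ω W a = (1 - q ^ W.card)⁻¹ *
      ∑ u ∈ src ρ W, (if ω u < a then q ^ W.card else 1) *
        D q ρ J ω (next ρ J W u) (ω u) := by
  rw [D, if_neg hW, Finset.sum_attach (src ρ W)
    (fun u => (if ω u < a then q ^ W.card else 1) * D q ρ J ω (next ρ J W u) (ω u))]

open Classical in
/-- good subsets whose complement has only large labels -/
noncomputable def SS (ρ : Finset (V × V)) (J : Finset V) (ω : V → ℕ) (W : Finset V) (a : ℕ) :
    Finset (Finset V) :=
  W.powerset.filter (fun A => Good ρ J W A ∧ ∀ v ∈ J, v ∈ W → v ∉ A → a ≤ ω v)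

lemma mem_SS {ρ : Finset (V × V)} {J : Finset V} {ω : V → ℕ} {W : Finset V} {a : ℕ}
    {A : Finset V} :
    A ∈ SS ρ J ω W a ↔ Good ρ J W A ∧ ∀ v ∈ J, v ∈ W → v ∉ A → a ≤ ω v := by
  classical
  simp only [SS, mem_filter, mem_powerset, and_iff_right_iff_imp]
  intro h
  exact h.1.1

/-- standing hypotheses -/
structure Hyp (ρ : Finset (V × V)) (J : Finset V) (ω : V → ℕ) (W : Finset V) : Prop where
  acyc : Acyc ρ W
  inj : Set.InjOn ω W
  mono : ∀ x ∈ W, ∀ y ∈ W, (x, y) ∈ ρ → ω x < ω y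
  srcJ : src ρ W ⊆ J

lemma Hyp.good {ρ : Finset (V × V)} {J : Finset V} {ω : V → ℕ} {W W' : Finset V}
    (h : Hyp ρ J ω W) (hg : Good ρ J W W') : Hyp ρ J ω W' where
  acyc := h.acyc.mono hg.1
  inj := h.inj.mono (by exact_mod_cast hg.1)
  mono x hx y hy hxy := h.mono x (hg.1 hx) y (hg.1 hy) hxy
  srcJ := hg.2.2

lemma SS_erase {ρ : Finset (V × V)} {J : Finset V} {ω : V → ℕ} {W : Finset V} {a : ℕ}
    (h : Hyp ρ J ω W) :
    (SS ρ J ω W a).erase W =
      ((src ρ W).filter (fun u => a ≤ ω u)).biUnion (fun u => SS ρ J ω (next ρ J W u) (ω u)) := by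
  ext A
  rw [mem_erase, mem_SS, mem_biUnion]
  constructor
  · rintro ⟨hAW, hg, hA⟩
    -- the key fact: any element of the complement is above a source in the complement
    have key : ∀ x ∈ W, x ∉ A → ∃ u ∈ src ρ W, u ∉ A ∧ ω u ≤ ω x := by
      intro x hx hxA
      obtain ⟨u1, hu1, hu1'⟩ := h.acyc (W.filter (fun y => y ∉ A ∧ ω y ≤ ω x))
        (filter_subset _ _) ⟨x, mem_filter.mpr ⟨hx, hxA, le_refl _⟩⟩
      rw [mem_filter] at hu1
      refine ⟨u1, ?_, hu1.2.1, hu1.2.2⟩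
      rw [mem_src]
      refine ⟨hu1.1, fun w hw hwu => ?_⟩
      have h1 : w ∉ A := fun hwA => hu1.2.1 (hg.2.1 w u1 hwu hwA hu1.1)
      have h2 := h.mono w hw u1 hu1.1 hwu
      exact hu1' w (mem_filter.mpr ⟨hw, h1, by omega⟩) hwu
    obtain ⟨x0, hx0, hx0'⟩ : ∃ x ∈ W, x ∉ A := by
      by_contra hcon
      push Not at hcon
      exact hAW (Subset.antisymm hg.1 hcon)
    obtain ⟨u0, hu0, hu0A, _⟩ := key x0 hx0 hx0'
    obtain ⟨u, hu, humin⟩ := exists_min_image ((src ρ W).filter (fun u => u ∉ A)) ω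
      ⟨u0, mem_filter.mpr ⟨hu0, hu0A⟩⟩
    rw [mem_filter] at hu
    have huW := src_subset hu.1
    have huJ := h.srcJ hu.1
    refine ⟨u, mem_filter.mpr ⟨hu.1, hA u huJ huW hu.2⟩, ?_⟩
    rw [mem_SS]
    refine ⟨good_next_iff.mpr ⟨hg, hu.2⟩, ?_⟩
    intro v _ hv hvA
    obtain ⟨w, hw, hwA, hwv⟩ := key v (next_subset hv) hvA
    exact (humin w (mem_filter.mpr ⟨hw, hwA⟩)).trans hwv
  · rintro ⟨u, hu, hA⟩
    rw [mem_filter] at hu
    rw [mem_SS, good_next_iff] at hA
    obtain ⟨⟨hg, huA⟩, hA⟩ := hA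
    refine ⟨?_, hg, ?_⟩
    · rintro rfl
      exact huA (src_subset hu.1)
    · intro v hvJ hvW hvA
      by_cases hvu : v = u
      · rw [hvu]; exact hu.2
      · exact hu.2.trans (hA v hvJ (mem_next_of_mem hu.1 hvW hvJ hvu) hvA)

lemma SS_disj {ρ : Finset (V × V)} {J : Finset V} {ω : V → ℕ} {W : Finset V} {a : ℕ}
    (h : Hyp ρ J ω W) :
    Set.PairwiseDisjoint (((src ρ W).filter (fun u => a ≤ ω u) : Finset V) : Set V)
      (fun u => SS ρ J ω (next ρ J W u) (ω u)) := by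
  intro u hu u' hu' huu'
  rw [mem_coe, mem_filter] at hu hu'
  simp only [Function.onFun]
  rw [Finset.disjoint_left]
  intro A hA hA'
  rw [mem_SS] at hA hA'
  have h1 : ω u ≤ ω u' := by
    apply hA.2 u' (h.srcJ hu'.1)
    · exact mem_next_of_mem hu.1 (src_subset hu'.1) (h.srcJ hu'.1) (Ne.symm huu')
    · intro hu'A
      exact (good_next_iff.mp hA'.1).2 hu'A
  have h2 : ω u' ≤ ω u := by
    apply hA'.2 u (h.srcJ hu.1)
    · exact mem_next_of_mem hu'.1 (src_subset hu.1) (h.srcJ hu.1) huu'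
    · intro huA
      exact (good_next_iff.mp hA.1).2 huA
  exact huu' (h.inj (src_subset hu.1) (src_subset hu'.1) (le_antisymm h1 h2))

lemma self_mem_SS {ρ : Finset (V × V)} {J : Finset V} {ω : V → ℕ} {W : Finset V} {a : ℕ}
    (h : src ρ W ⊆ J) : W ∈ SS ρ J ω W a := by
  rw [mem_SS]
  exact ⟨good_self h, fun v _ hv hv' => absurd hv hv'⟩

lemma D_claim {q : K} (hq : ∀ n : ℕ, 0 < n → q ^ n ≠ 1) {ρ : Finset (V × V)} {J : Finset V}
    {ω : V → ℕ} : ∀ (n : ℕ) (W : Finset V), W.card = n → Hyp ρ J ω W → ∀ a : ℕ,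
      D q ρ J ω W a = ∑ A ∈ SS ρ J ω W a, q ^ A.card * D q ρ J ω A 0 := by
  intro n
  induction n using Nat.strong_induction_on with
  | _ n ih =>
    intro W hn h a
    by_cases hW : W = ∅
    · subst hW
      have h1 : SS ρ J ω ∅ a = {∅} := by
        ext A
        rw [mem_SS, mem_singleton]
        constructor
        · rintro ⟨h1, _⟩
          exact subset_empty.mp h1.1
        · rintro rfl
          exact ⟨good_empty, fun v _ hv => absurd hv (notMem_empty _)⟩
      rw [h1, sum_singleton, D_empty, D_empty]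
      simp
    · rw [← add_sum_erase _ _ (self_mem_SS h.srcJ), SS_erase h, sum_biUnion (SS_disj h)]
      have h2 : ∀ u ∈ (src ρ W).filter (fun u => a ≤ ω u),
          ∑ A ∈ SS ρ J ω (next ρ J W u) (ω u), q ^ A.card * D q ρ J ω A 0 =
            D q ρ J ω (next ρ J W u) (ω u) := by
        intro u hu
        rw [mem_filter] at hu
        exact (ih (next ρ J W u).card (by rw [← hn]; exact card_next_lt (src_subset hu.1)) _ rfl
          (h.good next_good) (ω u)).symm
      rw [sum_congr rfl h2]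
      have hne : (1 - q ^ W.card) ≠ 0 := by
        rw [sub_ne_zero]
        exact (hq _ (card_pos.mpr (nonempty_iff_ne_empty.mpr hW))).symm
      rw [D_eq q ρ J ω hW a, D_eq q ρ J ω hW 0]
      rw [inv_mul_eq_iff_eq_mul₀ hne, mul_add]
      rw [show (1 - q ^ W.card) * (q ^ W.card * ((1 - q ^ W.card)⁻¹ *
        ∑ u ∈ src ρ W, (if ω u < 0 then q ^ W.card else 1) *
          D q ρ J ω (next ρ J W u) (ω u))) = q ^ W.card *
        ∑ u ∈ src ρ W, (if ω u < 0 then q ^ W.card else 1) *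
          D q ρ J ω (next ρ J W u) (ω u) by field_simp]
      rw [sum_filter, mul_sum, mul_sum, ← sum_add_distrib]
      apply sum_congr rfl
      intro u _
      by_cases hu : ω u < a
      · rw [if_pos hu, if_neg (Nat.not_lt_zero _), if_neg (by omega)]
        ring
      · rw [if_neg hu, if_neg (Nat.not_lt_zero _), if_pos (by omega)]
        ring

open Classical in
lemma D_zero_eq_t {q : K} (hq : ∀ n : ℕ, 0 < n → q ^ n ≠ 1) {ρ : Finset (V × V)}
    {J : Finset V} {ω : V → ℕ} : ∀ (n : ℕ) (W : Finset V), W.card = n → Hyp ρ J ω W →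
      t q ρ J W = D q ρ J ω W 0 := by
  intro n
  induction n using Nat.strong_induction_on with
  | _ n ih =>
    intro W hn h
    by_cases hW : W = ∅
    · subst hW
      rw [t_empty, D_empty]
    · have hne : (1 - q ^ W.card) ≠ 0 := by
        rw [sub_ne_zero]
        exact (hq _ (card_pos.mpr (nonempty_iff_ne_empty.mpr hW))).symm
      have h1 := D_claim hq n W hn h 0
      rw [← add_sum_erase _ _ (self_mem_SS h.srcJ)] at h1
      have h2 : (SS ρ J ω W 0).erase W = W.ssubsets.filter (Good ρ J W) := by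
        ext A
        rw [mem_erase, mem_SS, mem_filter, mem_ssubsets]
        constructor
        · rintro ⟨h3, h4, _⟩
          exact ⟨Finset.ssubset_iff_subset_ne.mpr ⟨h4.1, h3⟩, h4⟩
        · rintro ⟨h3, h4⟩
          exact ⟨(Finset.ssubset_iff_subset_ne.mp h3).2, h4, fun _ _ _ _ => Nat.zero_le _⟩
      rw [h2] at h1
      have h3 : ∑ A ∈ W.ssubsets.filter (Good ρ J W), q ^ A.card * D q ρ J ω A 0 =
          ∑ A ∈ W.ssubsets.filter (Good ρ J W), q ^ A.card * t q ρ J A := by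
        apply sum_congr rfl
        intro A hA
        rw [mem_filter, mem_ssubsets] at hA
        rw [ih A.card (by rw [← hn]; exact card_lt_card hA.1) A rfl (h.good hA.2)]
      rw [h3] at h1
      rw [t_eq q ρ J hW, inv_mul_eq_iff_eq_mul₀ hne]
      linear_combination -h1

/-- the natural polynomials in `q` -/
noncomputable def NP (q : K) : Subsemiring K :=
  (Polynomial.eval₂RingHom (Nat.castRingHom K) q).rangeS

lemma mem_NP {q x : K} : x ∈ NP q ↔ ∃ b : ℕ[X], b.eval₂ (Nat.castRingHom K) q = x := by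
  simp [NP, RingHom.mem_rangeS]

lemma q_mem_NP (q : K) : q ∈ NP q := mem_NP.mpr ⟨X, by simp⟩

/-- q-number -/
def qn (q : K) (n : ℕ) : K := ∑ i ∈ range n, q ^ i

/-- q-factorial -/
def qfact (q : K) (n : ℕ) : K := ∏ i ∈ range n, qn q (i + 1)

lemma qn_mem (q : K) (n : ℕ) : qn q n ∈ NP q :=
  sum_mem fun i _ => pow_mem (q_mem_NP q) i

lemma one_sub_mul_qn (q : K) (n : ℕ) : (1 - q) * qn q n = 1 - q ^ n := by
  rw [qn, mul_neg_geom_sum]

lemma qfact_le {q : K} {m n : ℕ} (h : m ≤ n) : ∃ c ∈ NP q, qfact q n = qfact q m * c := by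
  refine ⟨∏ i ∈ Ico m n, qn q (i + 1), prod_mem fun i _ => qn_mem q _, ?_⟩
  rw [qfact, qfact, prod_range_mul_prod_Ico _ h]

lemma D_pos {q : K} (hq : ∀ n : ℕ, 0 < n → q ^ n ≠ 1) {ρ : Finset (V × V)} {J : Finset V}
    {ω : V → ℕ} : ∀ (n : ℕ) (W : Finset V), W.card = n → Hyp ρ J ω W → ∀ a : ℕ,
      (1 - q) ^ (J ∩ W).card * qfact q W.card * D q ρ J ω W a ∈ NP q := by
  intro n
  induction n using Nat.strong_induction_on with
  | _ n ih =>
    intro W hn h a
    by_cases hW : W = ∅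
    · subst hW
      rw [D_empty]
      simp [qfact, one_mem]
    · have hne : (1 - q ^ W.card) ≠ 0 := by
        rw [sub_ne_zero]
        exact (hq _ (card_pos.mpr (nonempty_iff_ne_empty.mpr hW))).symm
      obtain ⟨m, hm⟩ : ∃ m, W.card = m + 1 :=
        ⟨W.card - 1, by have := card_pos.mpr (nonempty_iff_ne_empty.mpr hW); omega⟩
      obtain ⟨u0, hu0, hu0'⟩ := h.acyc W (Subset.refl _) (nonempty_iff_ne_empty.mpr hW)
      have hu0s : u0 ∈ src ρ W := mem_src.mpr ⟨hu0, hu0'⟩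
      obtain ⟨j, hj⟩ : ∃ j, (J ∩ W).card = j + 1 :=
        ⟨(J ∩ W).card - 1, by
          have := card_pos.mpr ⟨u0, mem_inter.mpr ⟨h.srcJ hu0s, hu0⟩⟩
          omega⟩
      rw [D_eq q ρ J ω hW a, hj, hm, qfact, prod_range_succ]
      change (1 - q) ^ (j + 1) * (qfact q m * qn q (m + 1)) * _ ∈ NP q
      have h1 := one_sub_mul_qn q (m + 1)
      rw [hm] at hne
      have h2 : (1 - q) ^ (j + 1) * (qfact q m * qn q (m + 1)) * ((1 - q ^ (m + 1))⁻¹ *
          ∑ u ∈ src ρ W, (if ω u < a then q ^ (m + 1) else 1) *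
            D q ρ J ω (next ρ J W u) (ω u)) =
          ∑ u ∈ src ρ W, (if ω u < a then q ^ (m + 1) else 1) *
            ((1 - q) ^ j * qfact q m * D q ρ J ω (next ρ J W u) (ω u)) := by
        rw [← h1] at hne ⊢
        have h3 : (1 - q) ^ (j + 1) * (qfact q m * qn q (m + 1)) *
            (((1 - q) * qn q (m + 1))⁻¹ *
          ∑ u ∈ src ρ W, (if ω u < a then q ^ (m + 1) else 1) *
            D q ρ J ω (next ρ J W u) (ω u)) =
            (((1 - q) * qn q (m + 1)) * ((1 - q) * qn q (m + 1))⁻¹) * ((1 - q) ^ j * qfact q m *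
            ∑ u ∈ src ρ W, (if ω u < a then q ^ (m + 1) else 1) *
            D q ρ J ω (next ρ J W u) (ω u)) := by ring
        rw [h3, mul_inv_cancel₀ hne, one_mul, mul_sum]
        apply sum_congr rfl
        intro u _
        ring
      rw [h2]
      apply sum_mem
      intro u hu
      apply mul_mem
      · split_ifs
        · exact pow_mem (q_mem_NP q) _
        · exact one_mem _
      · have hlt := card_next_lt (ρ := ρ) (J := J) (src_subset hu)
        obtain ⟨c, hc, hc'⟩ := qfact_le (q := q) (m := (next ρ J W u).card) (n := m) (by omega)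
        have h4 := ih (next ρ J W u).card (by omega) _ rfl (h.good next_good) (ω u)
        have h5 : (J ∩ next ρ J W u).card = j := by
          rw [inter_next hu, card_erase_of_mem (mem_inter.mpr ⟨h.srcJ hu, src_subset hu⟩), hj]
          rfl
        rw [h5] at h4
        rw [hc']
        have h6 : (1 - q) ^ j * (qfact q (next ρ J W u).card * c) *
            D q ρ J ω (next ρ J W u) (ω u) =
            ((1 - q) ^ j * qfact q (next ρ J W u).card * D q ρ J ω (next ρ J W u) (ω u)) * c := by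
          ring
        rw [h6]
        exact mul_mem h4 hc

theorem t_pos {q : K} (hq : ∀ n : ℕ, 0 < n → q ^ n ≠ 1) {ρ : Finset (V × V)} {J W : Finset V}
    (hac : Acyc ρ W) (hJ : src ρ W ⊆ J) :
    (1 - q) ^ (J ∩ W).card * qfact q W.card * t q ρ J W ∈ NP q := by
  obtain ⟨ω, h1, h2⟩ := exists_label W.card W rfl hac
  have h : Hyp ρ J ω W := ⟨hac, h1, h2, hJ⟩
  rw [D_zero_eq_t hq W.card W rfl h]
  exact D_pos hq W.card W rfl h 0

end Pool.Agent.W_MP_9c9001_co
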