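import Pool.Agent.W_MP_9c9001_co.Orient

open Finset

namespace Pool.Agent.W_MP_9c9001_co

variable {V : Type*} [DecidableEq V] {K : Type*} [Field K]

/-- `W'` is an up-closed subset of `W` whose sources all lie in `J` -/
def Good (ρ : Finset (V × V)) (J W W' : Finset V) : Prop :=
  W' ⊆ W ∧ (∀ x y, (x, y) ∈ ρ → x ∈ W' → y ∈ W → y ∈ W') ∧ src ρ W' ⊆ J

lemma good_empty {ρ : Finset (V × V)} {J W : Finset V} : Good ρ J W ∅ := by
  refine ⟨empty_subset _, fun x y _ h => absurd h (notMem_empty _), ?_⟩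
  intro u hu
  exact absurd (src_subset hu) (notMem_empty _)

lemma good_self {ρ : Finset (V × V)} {J W : Finset V} (h : src ρ W ⊆ J) : Good ρ J W W :=
  ⟨Subset.refl _, fun _ _ _ _ h => h, h⟩

open Classical in
/-- the rational generating function attached to an orientation -/
noncomputable def t (q : K) (ρ : Finset (V × V)) (J : Finset V) (W : Finset V) : K :=
  if W = ∅ then 1 else
    (1 - q ^ W.card)⁻¹ *
      ∑ W' ∈ (W.ssubsets.filter (Good ρ J W)).attach, q ^ W'.1.card * t q ρ J W'.1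
termination_by W.card
decreasing_by
  have := W'.2
  rw [mem_filter, mem_ssubsets] at this
  exact card_lt_card this.1

open Classical in
lemma t_empty (q : K) (ρ : Finset (V × V)) (J : Finset V) : t q ρ J ∅ = 1 := by
  rw [t]; simp

open Classical in
lemma t_eq (q : K) (ρ : Finset (V × V)) (J : Finset V) {W : Finset V} (hW : W ≠ ∅) :
    t q ρ J W = (1 - q ^ W.card)⁻¹ *
      ∑ W' ∈ W.ssubsets.filter (Good ρ J W), q ^ W'.card * t q ρ J W' := by
  rw [t, if_neg hW, Finset.sum_attach (W.ssubsets.filter (Good ρ J W))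
    (fun W' => q ^ W'.card * t q ρ J W')]

open Classical in
lemma powerset_filter_good {ρ : Finset (V × V)} {J W : Finset V} (h : src ρ W ⊆ J) :
    W.powerset.filter (Good ρ J W) = insert W (W.ssubsets.filter (Good ρ J W)) := by
  ext A
  rw [mem_insert, mem_filter, mem_filter, mem_powerset, mem_ssubsets]
  constructor
  · rintro ⟨h1, h2⟩
    rcases eq_or_ssubset_of_subset h1 with h3 | h3
    · exact Or.inl h3
    · exact Or.inr ⟨h3, h2⟩
  · rintro (rfl | ⟨h1, h2⟩)
    · exact ⟨Subset.refl _, good_self h⟩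
    · exact ⟨h1.subset, h2⟩

open Classical in
lemma t_rec {q : K} (hq : ∀ n : ℕ, 0 < n → q ^ n ≠ 1) {ρ : Finset (V × V)} {J : Finset V}
    {W : Finset V} (h : src ρ W ⊆ J) :
    t q ρ J W = ∑ W' ∈ W.powerset.filter (Good ρ J W), q ^ W'.card * t q ρ J W' := by
  rw [powerset_filter_good h, sum_insert]
  · by_cases hW : W = ∅
    · subst hW
      have h0 : ∑ W' ∈ (∅ : Finset V).ssubsets.filter (Good ρ J ∅), q ^ W'.card * t q ρ J W' = 0 := by
        apply sum_eq_zero
        intro A hA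
        rw [mem_filter, mem_ssubsets] at hA
        exact absurd hA.1 (not_ssubset_empty A)
      rw [h0]
      simp [t_empty]
    · have h1 : (1 - q ^ W.card) ≠ 0 := by
        rw [sub_ne_zero]
        exact (hq _ (card_pos.mpr (nonempty_iff_ne_empty.mpr hW))).symm
      have h2 := t_eq q ρ J hW
      have h3 : (1 - q ^ W.card) * t q ρ J W =
          ∑ W' ∈ W.ssubsets.filter (Good ρ J W), q ^ W'.card * t q ρ J W' := by
        rw [h2, mul_inv_cancel_left₀ h1]
      rw [← h3]
      ring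
  · rw [mem_filter, mem_ssubsets]
    intro h
    exact h.1.2 (Subset.refl _)

lemma src_congr {ρ ρ' : Finset (V × V)} {W : Finset V} (h : res ρ W = res ρ' W) :
    src ρ W = src ρ' W := by
  rw [← src_res, h, src_res]

lemma res_res {ρ : Finset (V × V)} {A W : Finset V} (h : A ⊆ W) : res (res ρ W) A = res ρ A := by
  ext ⟨x, y⟩
  simp only [mem_res]
  constructor
  · rintro ⟨⟨h1, _, _⟩, h2, h3⟩
    exact ⟨h1, h2, h3⟩
  · rintro ⟨h1, h2, h3⟩
    exact ⟨⟨h1, h h2, h h3⟩, h2, h3⟩

lemma res_mono_eq {ρ ρ' : Finset (V × V)} {A W : Finset V} (h : A ⊆ W)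
    (hr : res ρ W = res ρ' W) : res ρ A = res ρ' A := by
  rw [← res_res h, hr, res_res h]

lemma good_congr {ρ ρ' : Finset (V × V)} {J J' W W' : Finset V} (hr : res ρ W = res ρ' W)
    (hJ : J ∩ W = J' ∩ W) (h : Good ρ J W W') : Good ρ' J' W W' := by
  refine ⟨h.1, ?_, ?_⟩
  · intro x y hxy hx hy
    have h1 : (x, y) ∈ res ρ' W := mem_res.mpr ⟨hxy, h.1 hx, hy⟩
    rw [← hr] at h1
    exact h.2.1 x y (mem_res.mp h1).1 hx hy
  · rw [← src_congr (res_mono_eq h.1 hr)]
    intro u hu
    have h1 : u ∈ J ∩ W := mem_inter.mpr ⟨h.2.2 hu, h.1 (src_subset hu)⟩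
    rw [hJ] at h1
    exact (mem_inter.mp h1).1

lemma inter_mono_eq {J J' A W : Finset V} (h : A ⊆ W) (hJ : J ∩ W = J' ∩ W) :
    J ∩ A = J' ∩ A := by
  ext x
  rw [mem_inter, mem_inter]
  constructor
  · rintro ⟨h1, h2⟩
    have h3 : x ∈ J ∩ W := mem_inter.mpr ⟨h1, h h2⟩
    rw [hJ] at h3
    exact ⟨(mem_inter.mp h3).1, h2⟩
  · rintro ⟨h1, h2⟩
    have h3 : x ∈ J' ∩ W := mem_inter.mpr ⟨h1, h h2⟩
    rw [← hJ] at h3
    exact ⟨(mem_inter.mp h3).1, h2⟩

open Classical in
lemma t_congr (q : K) {ρ ρ' : Finset (V × V)} {J J' : Finset V} :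
    ∀ (n : ℕ) {W : Finset V}, W.card = n → res ρ W = res ρ' W → J ∩ W = J' ∩ W →
      t q ρ J W = t q ρ' J' W := by
  intro n
  induction n using Nat.strong_induction_on with
  | _ n ih =>
    intro W hn hr hJ
    by_cases hW : W = ∅
    · subst hW; rw [t_empty, t_empty]
    · rw [t_eq q ρ J hW, t_eq q ρ' J' hW]
      have h1 : W.ssubsets.filter (Good ρ J W) = W.ssubsets.filter (Good ρ' J' W) := by
        apply filter_congr
        intro A _
        exact ⟨good_congr hr hJ, good_congr hr.symm hJ.symm⟩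
      rw [h1]
      congr 1
      apply sum_congr rfl
      intro A hA
      rw [mem_filter, mem_ssubsets] at hA
      rw [ih A.card (by rw [← hn]; exact card_lt_card hA.1) rfl
        (res_mono_eq hA.1.subset hr) (inter_mono_eq hA.1.subset hJ)]

/-- acyclicity of a relation on `W` -/
def Acyc (ρ : Finset (V × V)) (W : Finset V) : Prop :=
  ∀ A ⊆ W, A.Nonempty → ∃ u ∈ A, ∀ w ∈ A, (w, u) ∉ ρ

omit [DecidableEq V] in
lemma Acyc.mono {ρ : Finset (V × V)} {W W' : Finset V} (h : Acyc ρ W) (h' : W' ⊆ W) :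
    Acyc ρ W' := fun A hA hne => h A (hA.trans h') hne

lemma exists_label {ρ : Finset (V × V)} : ∀ (n : ℕ) (W : Finset V), W.card = n → Acyc ρ W →
    ∃ ω : V → ℕ, Set.InjOn ω W ∧ ∀ x ∈ W, ∀ y ∈ W, (x, y) ∈ ρ → ω x < ω y := by
  intro n
  induction n with
  | zero =>
    intro W hW _
    rw [card_eq_zero] at hW
    subst hW
    exact ⟨fun _ => 0, by simp, by simp⟩
  | succ n ih =>
    intro W hW hac
    have hne : W.Nonempty := by rw [← card_pos, hW]; omega
    obtain ⟨u, hu, hu'⟩ := hac W (Subset.refl _) hne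
    obtain ⟨ω, h1, h2⟩ := ih (W.erase u) (by rw [card_erase_of_mem hu, hW]; rfl)
      (hac.mono (erase_subset _ _))
    refine ⟨fun v => if v = u then 0 else ω v + 1, ?_, ?_⟩
    · intro x hx y hy hxy
      simp only at hxy
      by_cases hxu : x = u <;> by_cases hyu : y = u
      · rw [hxu, hyu]
      · rw [if_pos hxu, if_neg hyu] at hxy; omega
      · rw [if_neg hxu, if_pos hyu] at hxy; omega
      · rw [if_neg hxu, if_neg hyu] at hxy
        exact h1 (by simpa [hxu] using hx) (by simpa [hyu] using hy) (by omega)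
    · intro x hx y hy hxy
      have hyu : y ≠ u := by
        rintro rfl
        exact hu' x hx hxy
      by_cases hxu : x = u
      · simp only [hxu, hyu, if_true, if_false]; omega
      · simp only [hxu, hyu, if_false]
        have := h2 x (mem_erase.mpr ⟨hxu, hx⟩) y (mem_erase.mpr ⟨hyu, hy⟩) hxy
        omega

end Pool.Agent.W_MP_9c9001_co
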